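import Pool.Agent.H29.L.R_seed8.H931R3.LAProd

set_option autoImplicit false

/-!
General facts on the linear arboricity: greedy bound, lower bound, invariance.
-/

namespace H931R3.LA

open SimpleGraph

theorem Cov.mono {V : Type} {G : SimpleGraph V} {k k' : ℕ} (h : Cov G k) (hk : k ≤ k') :
    Cov G k' := by
  classical
  obtain ⟨F, hF, hG⟩ := h
  refine ⟨fun i => if h : i.val < k then F ⟨i.val, h⟩ else ⊥, ?_, ?_⟩
  · intro i
    by_cases h : i.val < k
    · simp only [h, dif_pos]; exact hF _
    · simp only [h, dif_neg, not_false_eq_true]; exact isLF_bot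
  · ext x y
    rw [← hG, iSup_adj, iSup_adj]
    constructor
    · rintro ⟨i, hi⟩
      by_cases h : i.val < k
      · simp only [h, dif_pos] at hi; exact ⟨_, hi⟩
      · simp only [h, dif_neg, not_false_eq_true] at hi; exact absurd hi (by simp)
    · rintro ⟨i, hi⟩
      refine ⟨⟨i.val, lt_of_lt_of_le i.2 hk⟩, ?_⟩
      have h : i.val < k := i.2
      simp only [h, dif_pos]
      exact hi

theorem Cov.iso {V W : Type} [Finite V] [Finite W] {G : SimpleGraph V} {H : SimpleGraph W} {k : ℕ}
    (h : Cov G k) (e : G ≃g H) : Cov H k := by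
  obtain ⟨F, hF, hG⟩ := h
  refine ⟨fun i => (F i).comap e.symm, ?_, ?_⟩
  · intro i
    refine ⟨?_, ?_⟩
    · refine (hF i).1.comap (G := (F i).comap e.symm) ⟨e.symm, fun h => h⟩ e.symm.injective
    · intro w
      refine le_trans ?_ ((hF i).2 (e.symm w))
      rw [← Set.ncard_image_of_injective _ e.symm.injective]
      refine Set.ncard_le_ncard ?_ (Set.toFinite _)
      rintro _ ⟨x, hx, rfl⟩
      exact hx
  · ext x y
    rw [iSup_adj]
    have : (∃ i, ((F i).comap e.symm).Adj x y) ↔ (⨆ i, F i).Adj (e.symm x) (e.symm y) := by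
      rw [iSup_adj]; exact Iff.rfl
    rw [this, hG]
    exact e.symm.map_adj_iff

/-- Adding an edge to a linear forest. -/
theorem isLF_sup_edge {V : Type} [Finite V] {F : SimpleGraph V} (hF : IsLF F) (u v : V)
    (huv : u ≠ v) (h : (F.neighborSet u).ncard + (F.neighborSet v).ncard ≤ 1) :
    IsLF (F ⊔ edge u v) := by
  classical
  have := Fintype.ofFinite V
  refine ⟨?_, ?_⟩
  · refine IsAcyclic.sup_edge_of_not_reachable ?_ hF.1
    intro hr
    rcases Nat.eq_zero_or_pos (F.neighborSet u).ncard with h0 | h0
    · exact huv (eq_of_deg_zero F u v h0 hr)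
    · have h1 : (F.neighborSet v).ncard = 0 := by omega
      exact huv (eq_of_deg_zero F v u h1 hr.symm).symm
  · intro w
    by_cases hw : w = u
    · subst hw
      have hsub : (F ⊔ edge w v).neighborSet w ⊆ insert v (F.neighborSet w) := by
        intro x hx
        rw [mem_neighborSet, sup_adj, edge_adj] at hx
        rcases hx with hx | ⟨hx, _⟩
        · exact Or.inr hx
        · rcases hx with ⟨_, hx⟩ | ⟨hx, _⟩
          · exact Or.inl hx
          · exact absurd hx huv
      refine le_trans (Set.ncard_le_ncard hsub (Set.toFinite _)) ?_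
      have := Set.ncard_insert_le v (F.neighborSet w)
      omega
    · by_cases hw' : w = v
      · subst hw'
        have hsub : (F ⊔ edge u w).neighborSet w ⊆ insert u (F.neighborSet w) := by
          intro x hx
          rw [mem_neighborSet, sup_adj, edge_adj] at hx
          rcases hx with hx | ⟨hx, _⟩
          · exact Or.inr hx
          · rcases hx with ⟨hx, _⟩ | ⟨_, hx⟩
            · exact absurd hx.symm huv
            · exact Or.inl hx
        refine le_trans (Set.ncard_le_ncard hsub (Set.toFinite _)) ?_
        have := Set.ncard_insert_le u (F.neighborSet w)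
        omega
      · have hsub : (F ⊔ edge u v).neighborSet w ⊆ F.neighborSet w := by
          intro x hx
          rw [mem_neighborSet, sup_adj, edge_adj] at hx
          rcases hx with hx | ⟨hx, _⟩
          · exact hx
          · rcases hx with ⟨hx, _⟩ | ⟨hx, _⟩
            · exact absurd hx hw
            · exact absurd hx hw'
        exact le_trans (Set.ncard_le_ncard hsub (Set.toFinite _)) (hF.2 w)

/-- The greedy bound: `Δ` linear forests suffice. -/
theorem cov_greedy {V : Type} [Finite V] (D : ℕ) : ∀ (n : ℕ) (G : SimpleGraph V),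
    G.edgeSet.ncard = n → (∀ v, (G.neighborSet v).ncard ≤ D) → Cov G D := by
  classical
  intro n
  induction n with
  | zero =>
    intro G h0 _
    rw [Set.ncard_eq_zero (Set.toFinite _)] at h0
    have hbot : G = ⊥ := edgeSet_eq_empty.mp h0
    refine ⟨fun _ => ⊥, fun _ => isLF_bot, ?_⟩
    rw [hbot]
    ext x y
    simp
  | succ n ih =>
    intro G hn hD
    have hne : G.edgeSet.Nonempty := by
      rw [← Set.ncard_pos (Set.toFinite _)]; omega
    obtain ⟨e, he⟩ := hne
    induction e using Sym2.ind with
    | _ u v =>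
      have huv : G.Adj u v := he
      set G' := G.deleteEdges {s(u, v)} with hG'
      have hcard : G'.edgeSet.ncard = n := by
        rw [hG', edgeSet_deleteEdges, Set.ncard_sdiff_singleton_of_mem he, hn]
        rfl
      have hle : ∀ w, G'.neighborSet w ⊆ G.neighborSet w := by
        intro w x hx
        exact (deleteEdges_le _ : G' ≤ G) hx
      have hu : (G'.neighborSet u).ncard + 1 ≤ D := by
        refine le_trans ?_ (hD u)
        have hlt : (G'.neighborSet u).ncard < (G.neighborSet u).ncard := by
          refine Set.ncard_lt_ncard ⟨hle u, ?_⟩ (Set.toFinite _)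
          intro hsub
          have : v ∈ G'.neighborSet u := hsub huv
          rw [mem_neighborSet, hG', deleteEdges_adj] at this
          exact this.2 rfl
        omega
      have hv : (G'.neighborSet v).ncard + 1 ≤ D := by
        refine le_trans ?_ (hD v)
        have hlt : (G'.neighborSet v).ncard < (G.neighborSet v).ncard := by
          refine Set.ncard_lt_ncard ⟨hle v, ?_⟩ (Set.toFinite _)
          intro hsub
          have : u ∈ G'.neighborSet v := hsub huv.symm
          rw [mem_neighborSet, hG', deleteEdges_adj] at this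
          exact this.2 (by rw [Sym2.eq_swap]; rfl)
        omega
      obtain ⟨c, hlt, hc⟩ := exists_col (ih G' hcard
        (fun w => le_trans (Set.ncard_le_ncard (hle w) (Set.toFinite _)) (hD w)))
      have hsum : ∑ i ∈ Finset.range D, (((cls G' c i).neighborSet u).ncard +
          ((cls G' c i).neighborSet v).ncard) < ∑ i ∈ Finset.range D, 2 := by
        rw [Finset.sum_add_distrib, sum_cls G' c D hlt u, sum_cls G' c D hlt v, Finset.sum_const,
          Finset.card_range, smul_eq_mul]
        omega
      obtain ⟨i, hiD, hi⟩ := Finset.exists_lt_of_sum_lt hsum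
      rw [Finset.mem_range] at hiD
      refine ⟨fun j => if j.val = i then cls G' c j.val ⊔ edge u v else cls G' c j.val, ?_, ?_⟩
      · intro j
        by_cases hj : j.val = i
        · simp only [hj, if_true]
          exact isLF_sup_edge (hc i) u v huv.ne (by omega)
        · simp only [hj, if_false]
          exact hc _
      · ext x y
        rw [iSup_adj]
        constructor
        · rintro ⟨j, hj⟩
          by_cases hji : j.val = i
          · simp only [hji, if_true] at hj
            rw [sup_adj, edge_adj] at hj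
            rcases hj with hj | ⟨hj, _⟩
            · exact hle x hj.1
            · rcases hj with ⟨rfl, rfl⟩ | ⟨rfl, rfl⟩
              · exact huv
              · exact huv.symm
          · simp only [hji, if_false] at hj
            exact hle x hj.1
        · intro hxy
          by_cases hxe : s(x, y) = s(u, v)
          · refine ⟨⟨i, hiD⟩, ?_⟩
            simp only [if_true]
            rw [sup_adj, edge_adj]
            right
            rw [Sym2.eq_iff] at hxe
            rcases hxe with ⟨h1, h2⟩ | ⟨h1, h2⟩
            · exact ⟨Or.inl ⟨h1, h2⟩, hxy.ne⟩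
            · exact ⟨Or.inr ⟨h1, h2⟩, hxy.ne⟩
          · have hxy' : G'.Adj x y := by
              rw [hG', deleteEdges_adj]
              exact ⟨hxy, hxe⟩
            refine ⟨⟨c s(x, y), hlt x y hxy'⟩, ?_⟩
            dsimp only
            split_ifs
            · exact Or.inl ⟨hxy', rfl⟩
            · exact ⟨hxy', rfl⟩

theorem exists_cov {V : Type} [Finite V] (G : SimpleGraph V) : ∃ k, Cov G k :=
  ⟨Nat.card V, cov_greedy _ _ G rfl (fun v => by
    rw [← Set.ncard_univ]
    exact Set.ncard_le_ncard (Set.subset_univ _) (Set.toFinite _))⟩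

theorem cov_la {V : Type} [Finite V] (G : SimpleGraph V) : Cov G (la G) :=
  Nat.sInf_mem (exists_cov G)

theorem la_le {V : Type} {G : SimpleGraph V} {k : ℕ} (h : Cov G k) : la G ≤ k :=
  Nat.sInf_le h

theorem la_le_iff {V : Type} [Finite V] {G : SimpleGraph V} {k : ℕ} : la G ≤ k ↔ Cov G k :=
  ⟨fun h => (cov_la G).mono h, la_le⟩

/-- The lower bound. -/
theorem lower {V : Type} [Finite V] [Nonempty V] {G : SimpleGraph V} {k r : ℕ} (hr : 1 ≤ r)
    (hG : Cov G k) (hreg : ∀ v, (G.neighborSet v).ncard = r) : (r + 2) / 2 ≤ k := by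
  classical
  have := Fintype.ofFinite V
  obtain ⟨c, hlt, hc⟩ := exists_col hG
  have hsum : ∀ v, ∑ i ∈ Finset.range k, ((cls G c i).neighborSet v).ncard = r := by
    intro v; rw [sum_cls G c k hlt v, hreg v]
  have hle : r ≤ 2 * k := by
    obtain ⟨v⟩ := ‹Nonempty V›
    rw [← hsum v]
    refine le_trans (Finset.sum_le_sum (fun i _ => (hc i).2 v)) ?_
    rw [Finset.sum_const, Finset.card_range, smul_eq_mul]
    omega
  have hne : r ≠ 2 * k := by
    intro hrk
    have hk : 0 < k := by omega
    obtain ⟨a⟩ := ‹Nonempty V›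
    obtain ⟨v, hv⟩ := exists_end (cls G c 0) (hc 0) a
    have h1 := hsum v
    have h2 : ∑ i ∈ Finset.range k, ((cls G c i).neighborSet v).ncard <
        ∑ i ∈ Finset.range k, 2 := by
      refine Finset.sum_lt_sum (fun i _ => (hc i).2 v) ⟨0, Finset.mem_range.mpr hk, ?_⟩
      omega
    rw [Finset.sum_const, Finset.card_range, smul_eq_mul] at h2
    omega
  omega

/-- Degrees in a Cartesian product. -/
theorem deg_boxProd {V W : Type} [Finite V] [Finite W] (G : SimpleGraph V) (H : SimpleGraph W)
    (x : V × W) : ((G □ H).neighborSet x).ncard =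
      (G.neighborSet x.1).ncard + (H.neighborSet x.2).ncard := by
  classical
  have h1 : (G □ H).neighborSet x = ((fun u => (u, x.2)) '' (G.neighborSet x.1)) ∪
      ((fun y => (x.1, y)) '' (H.neighborSet x.2)) := by
    ext ⟨a, b⟩
    simp only [mem_neighborSet, boxProd_adj, Set.mem_union, Set.mem_image, Prod.mk.injEq]
    constructor
    · rintro (⟨h, rfl⟩ | ⟨h, rfl⟩)
      · exact Or.inl ⟨a, h, rfl, rfl⟩
      · exact Or.inr ⟨b, h, rfl, rfl⟩
    · rintro (⟨u, h, rfl, rfl⟩ | ⟨y, h, rfl, rfl⟩)
      · exact Or.inl ⟨h, rfl⟩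
      · exact Or.inr ⟨h, rfl⟩
  rw [h1, Set.ncard_union_eq]
  · rw [Set.ncard_image_of_injective _ (fun a b h => congrArg Prod.fst h),
      Set.ncard_image_of_injective _ (fun a b h => congrArg Prod.snd h)]
  · rw [Set.disjoint_left]
    rintro _ ⟨u, hu, rfl⟩ ⟨y, hy, he⟩
    have h1 : x.1 = u := congrArg Prod.fst he
    rw [mem_neighborSet, h1] at hu
    exact hu.ne rfl

end H931R3.LA
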