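import Pool.Agent.H29.L.R_seed8.H931R3.LACore

set_option autoImplicit false

/-!
Edge colourings with linear forests as classes, and the choice of slots.
-/

namespace H931R3.LA

open SimpleGraph

/-- The colour class `i` of an edge colouring. -/
def cls {V : Type} (G : SimpleGraph V) (c : Sym2 V → ℕ) (i : ℕ) : SimpleGraph V where
  Adj u v := G.Adj u v ∧ c s(u, v) = i
  symm.symm u v h := ⟨h.1.symm, by rw [Sym2.eq_swap]; exact h.2⟩
  loopless.irrefl u h := h.1.ne rfl

theorem IsLF.anti {V : Type} [Finite V] {F F' : SimpleGraph V} (h : F' ≤ F) (hF : IsLF F) :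
    IsLF F' :=
  ⟨hF.1.anti h, fun v => le_trans (Set.ncard_le_ncard (fun _ hw => h hw) (Set.toFinite _)) (hF.2 v)⟩

theorem isLF_bot {V : Type} : IsLF (⊥ : SimpleGraph V) := by
  refine ⟨isAcyclic_bot, fun v => ?_⟩
  have : (⊥ : SimpleGraph V).neighborSet v = ∅ := by
    ext w; simp
  rw [this]; simp

/-- A cover by linear forests gives a colouring. -/
theorem exists_col {V : Type} [Finite V] {G : SimpleGraph V} {k : ℕ} (h : Cov G k) :
    ∃ c : Sym2 V → ℕ, (∀ u v, G.Adj u v → c s(u, v) < k) ∧ ∀ i, IsLF (cls G c i) := by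
  classical
  obtain ⟨F, hF, hG⟩ := h
  let c : Sym2 V → ℕ := fun e =>
    if h : ∃ i : Fin k, e ∈ (F i).edgeSet then (Classical.choose h).val else 0
  have hc : ∀ u v, G.Adj u v → ∃ i : Fin k, c s(u, v) = i.val ∧ (F i).Adj u v := by
    intro u v huv
    rw [← hG, iSup_adj] at huv
    obtain ⟨i, hi⟩ := huv
    have hex : ∃ i : Fin k, s(u, v) ∈ (F i).edgeSet := ⟨i, hi⟩
    refine ⟨Classical.choose hex, ?_, ?_⟩
    · show (if h : ∃ i : Fin k, s(u, v) ∈ (F i).edgeSet then (Classical.choose h).val else 0) = _
      rw [dif_pos hex]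
    · exact Classical.choose_spec hex
  refine ⟨c, ?_, ?_⟩
  · intro u v huv
    obtain ⟨i, hi, _⟩ := hc u v huv
    rw [hi]; exact i.2
  · intro i
    by_cases hik : i < k
    · refine IsLF.anti (F := F ⟨i, hik⟩) ?_ (hF _)
      intro u v huv
      obtain ⟨j, hj, hjF⟩ := hc u v huv.1
      have : j = ⟨i, hik⟩ := Fin.ext (by rw [← hj]; exact huv.2)
      rw [← this]; exact hjF
    · have : cls G c i = ⊥ := by
        ext u v
        simp only [bot_adj, iff_false]
        intro huv
        obtain ⟨j, hj, _⟩ := hc u v huv.1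
        have := huv.2
        rw [hj] at this
        exact hik (this ▸ j.2)
      rw [this]; exact isLF_bot

/-- The degrees in the classes add up to the degree. -/
theorem sum_cls {V : Type} [Finite V] (G : SimpleGraph V) (c : Sym2 V → ℕ) (k : ℕ)
    (hlt : ∀ u v, G.Adj u v → c s(u, v) < k) (v : V) :
    ∑ i ∈ Finset.range k, ((cls G c i).neighborSet v).ncard = (G.neighborSet v).ncard := by
  classical
  have hfin := Set.toFinite (G.neighborSet v)
  rw [Set.ncard_eq_toFinset_card _ hfin]
  rw [Finset.card_eq_sum_card_fiberwise (f := fun u => c s(v, u)) (t := Finset.range k)]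
  · refine Finset.sum_congr rfl fun i _ => ?_
    rw [Set.ncard_eq_toFinset_card _ (Set.toFinite _)]
    congr 1
    ext u
    simp only [Set.Finite.mem_toFinset, mem_neighborSet, Finset.mem_filter]
    exact Iff.rfl
  · intro u hu
    simp only [Set.Finite.coe_toFinset, mem_neighborSet] at hu
    simp only [Finset.coe_range, Set.mem_Iio]
    exact hlt v u hu

/-- Choice of two slots. -/
theorem two_slots (d : ℕ → ℕ) (k : ℕ) (hd : ∀ i, d i ≤ 2)
    (hs : (∑ i ∈ Finset.range k, d i) + 2 ≤ 2 * k) :
    ∃ s : Bool → ℕ, (∀ b, s b < k) ∧ (∀ b, d (s b) ≤ 1) ∧ (s false = s true → d (s false) = 0) := by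
  classical
  by_cases h0 : ∃ i, i < k ∧ d i = 0
  · obtain ⟨i, hik, hi⟩ := h0
    exact ⟨fun _ => i, fun _ => hik, fun _ => by simp [hi], fun _ => hi⟩
  · push Not at h0
    let T := (Finset.range k).filter (fun i => d i ≤ 1)
    have h1 : 2 * k ≤ (∑ i ∈ Finset.range k, d i) + T.card := by
      have e : ∑ i ∈ Finset.range k, 2 ≤ ∑ i ∈ Finset.range k, (d i + if d i ≤ 1 then 1 else 0) := by
        refine Finset.sum_le_sum fun i hi => ?_
        have := h0 i (Finset.mem_range.mp hi)
        split_ifs <;> omega
      rw [Finset.sum_add_distrib, ← Finset.sum_filter, Finset.sum_const, Finset.sum_const,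
        Finset.card_range] at e
      simp only [smul_eq_mul, mul_one] at e
      have : T.card = ((Finset.range k).filter (fun i => d i ≤ 1)).card := rfl
      omega
    have h2 : 1 < T.card := by omega
    obtain ⟨a, ha, b, hb, hab⟩ := Finset.one_lt_card.mp h2
    have ha' := Finset.mem_filter.mp ha
    have hb' := Finset.mem_filter.mp hb
    refine ⟨fun x => if x then b else a, ?_, ?_, ?_⟩
    · intro x; cases x
      · exact Finset.mem_range.mp ha'.1
      · exact Finset.mem_range.mp hb'.1
    · intro x; cases x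
      · exact ha'.2
      · exact hb'.2
    · intro h
      exact absurd h hab

/-- The selection of slots: every vertex gets two colours `sel v false`, `sel v true` in which it
has room for one more edge (for two more edges if they agree), and within a component of colour
`i` at most one vertex selects `i` with each label. -/
theorem exists_sel {V : Type} [Fintype V] (G : SimpleGraph V) (k : ℕ) (c : Sym2 V → ℕ)
    (hlt : ∀ u v, G.Adj u v → c s(u, v) < k) (hc : ∀ i, IsLF (cls G c i))
    (hdeg : ∀ v, (G.neighborSet v).ncard + 2 ≤ 2 * k) :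
    ∃ sel : V → Bool → ℕ, (∀ v x, sel v x < k) ∧
      (∀ v x, ((cls G c (sel v x)).neighborSet v).ncard ≤ 1) ∧
      (∀ v, sel v false = sel v true → ((cls G c (sel v false)).neighborSet v).ncard = 0) ∧
      (∀ v w x, sel v x = sel w x → (cls G c (sel v x)).Reachable v w → v = w) := by
  classical
  have hslots : ∀ v, ∃ s : Bool → ℕ, (∀ b, s b < k) ∧
      (∀ b, ((cls G c (s b)).neighborSet v).ncard ≤ 1) ∧
      (s false = s true → ((cls G c (s false)).neighborSet v).ncard = 0) := by
    intro v
    refine two_slots (fun i => ((cls G c i).neighborSet v).ncard) k (fun i => (hc i).2 v) ?_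
    rw [sum_cls G c k hlt v]
    exact hdeg v
  choose slot hs1 hs2 hs3 using hslots
  let κ : V × Bool → ℕ × Set V := fun s =>
    (slot s.1 s.2, {w | (cls G c (slot s.1 s.2)).Reachable s.1 w})
  have hκ : ∀ s s' : V × Bool, κ s = κ s' → slot s.1 s.2 = slot s'.1 s'.2 ∧
      (cls G c (slot s.1 s.2)).Reachable s.1 s'.1 := by
    intro s s' h
    have h1 : slot s.1 s.2 = slot s'.1 s'.2 := congrArg Prod.fst h
    have h2 : {w | (cls G c (slot s.1 s.2)).Reachable s.1 w} =
        {w | (cls G c (slot s'.1 s'.2)).Reachable s'.1 w} := congrArg Prod.snd h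
    refine ⟨h1, ?_⟩
    have h3 : s'.1 ∈ {w | (cls G c (slot s'.1 s'.2)).Reachable s'.1 w} := Reachable.refl _
    rw [← h2] at h3
    exact h3
  -- both slots of a vertex in the same colour
  have hboth : ∀ s s' : V × Bool, s ≠ s' → s.1 = s'.1 → slot s.1 s.2 = slot s'.1 s'.2 →
      ((cls G c (slot s.1 s.2)).neighborSet s.1).ncard = 0 := by
    rintro ⟨v, b⟩ ⟨w, b'⟩ hne hv hsl
    dsimp only at hv hsl ⊢
    subst hv
    cases b <;> cases b'
    · exact absurd rfl hne
    · exact hs3 v hsl
    · have := hs3 v hsl.symm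
      rw [hsl]; exact this
    · exact absurd rfl hne
  obtain ⟨col, hcol1, hcol2⟩ := two_col (Finset.univ : Finset V) κ (by
    intro s₁ s₂ s₃ _ _ _ h12 h13 h23 e12 e13
    obtain ⟨i12, r12⟩ := hκ s₁ s₂ e12
    obtain ⟨i13, r13⟩ := hκ s₁ s₃ e13
    have d1 := hs2 s₁.1 s₁.2
    have d2 : ((cls G c (slot s₁.1 s₁.2)).neighborSet s₂.1).ncard ≤ 1 := by
      rw [i12]; exact hs2 s₂.1 s₂.2
    have d3 : ((cls G c (slot s₁.1 s₁.2)).neighborSet s₃.1).ncard ≤ 1 := by
      rw [i13]; exact hs2 s₃.1 s₃.2
    have pairne : ∀ s s' s'' : V × Bool, s ≠ s' → s ≠ s'' → s' ≠ s'' → s.1 = s'.1 →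
        s''.1 = s.1 → False := by
      rintro ⟨a, x⟩ ⟨b, y⟩ ⟨d, z⟩ h1 h2 h3 h4 h5
      dsimp only at h4 h5
      subst h4; subst h5
      cases x <;> cases y <;> cases z <;> simp_all
    by_cases e1 : s₁.1 = s₂.1
    · have z := hboth s₁ s₂ h12 e1 i12
      have := eq_of_deg_zero _ _ _ z r13
      exact pairne s₁ s₂ s₃ h12 h13 h23 e1 this.symm
    · by_cases e2 : s₁.1 = s₃.1
      · have z := hboth s₁ s₃ h13 e2 i13
        have := eq_of_deg_zero _ _ _ z r12
        exact e1 this
      · by_cases e3 : s₂.1 = s₃.1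
        · have z := hboth s₂ s₃ h23 e3 (i12.symm.trans i13)
          rw [← i12] at z
          have := eq_of_deg_zero _ _ _ z r12.symm
          exact e1 this.symm
        · exact three_ends _ (hc _) s₁.1 s₂.1 s₃.1 e1 e2 e3 d1 d2 d3 r12 r13)
  -- relabel
  let pick : V → Bool → Bool := fun v x => if col (v, false) = x then false else true
  have hpick : ∀ v x, col (v, pick v x) = x := by
    intro v x
    have h1 := hcol1 v (Finset.mem_univ v)
    by_cases h : col (v, false) = x
    · have : pick v x = false := if_pos h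
      rw [this, h]
    · have : pick v x = true := if_neg h
      rw [this]
      revert h h1
      cases col (v, false) <;> cases col (v, true) <;> cases x <;> simp
  have hpick2 : ∀ v, pick v false ≠ pick v true := by
    intro v h
    have h1 := hpick v false
    rw [h, hpick v true] at h1
    exact absurd h1 (by simp)
  refine ⟨fun v x => slot v (pick v x), fun v x => hs1 _ _, fun v x => hs2 _ _, ?_, ?_⟩
  · intro v h
    exact hboth (v, pick v false) (v, pick v true)
      (fun h' => hpick2 v (congrArg Prod.snd h')) rfl h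
  · intro v w x h hr
    change slot v (pick v x) = slot w (pick w x) at h
    change (cls G c (slot v (pick v x))).Reachable v w at hr
    by_contra hvw
    have hne : ((v, pick v x) : V × Bool) ≠ (w, pick w x) := fun h' => hvw (congrArg Prod.fst h')
    have hk : κ (v, pick v x) = κ (w, pick w x) := by
      refine Prod.ext h ?_
      show {u | (cls G c (slot v (pick v x))).Reachable v u} =
        {u | (cls G c (slot w (pick w x))).Reachable w u}
      rw [← h]
      ext u
      show (cls G c (slot v (pick v x))).Reachable v u ↔ (cls G c (slot v (pick v x))).Reachable w u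
      exact ⟨fun hu => hr.symm.trans hu, fun hu => hr.trans hu⟩
    have := hcol2 _ _ (Finset.mem_univ _) (Finset.mem_univ _) hne hk
    rw [hpick, hpick] at this
    exact this rfl

end H931R3.LA
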